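import Pool.Agent.N329.SD.StmL

/-!
# Shoenfield's basis theorem for systems (helper2)
-/

set_option autoImplicit false
set_option linter.unreachableTactic false
set_option linter.unusedTactic false

namespace Pool.Agent.N2.SD

open Pool.Agent.W868 Pool.Agent.W868.GM Pool.Agent.R597 Pool.Agent.N329.SD Pool.Agent.Y588
open ZFSet (pair)

theorem con_univ (hC : Clo Con) : Con Set.univ := by
  have h := hC.comp (fun _ => True) ⟨fun _ => isTrue trivial, by simpa using Computable.const true⟩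
  simpa using h

theorem lab_mem {m : ℕ → ℕ} {α : ℕ → Ordinal.{0}} {κ : Ordinal.{0}} (h : ∀ k, α k < κ) (k : ℕ) :
    lab m α k ∈ Wl κ :=
  ZFSet.pair_mem_prod.2 ⟨nat_mem_omega _, Ordinal.toZFSet_mem_toZFSet_iff.2 (h k)⟩

theorem wl_mem (κ : Ordinal.{0}) : Wl κ ∈ Lcls :=
  isZFC_L.1.toIsZF.prod_mem isZFC_L.1.toIsZF.infinity (isZFC_L.2 _ (ZFSet.isOrdinal_toZFSet κ))

/-- A coded sequence of natural numbers in `L` has a constructible graph. -/
theorem con_graph (hPR : S_PR) {g : ZFSet.{0}} (hg : g ∈ Lcls) {m : ℕ → ℕ}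
    (h : ∀ k, fs (ap g (nat k)) = nat (m k)) : Con {n | ∃ k, n = Nat.pair k (m k)} := by
  have hZ := isZFC_L.1.toIsZF
  have hB := hZ.base
  have hl := hPR Lcls hZ _ Nat.Partrec.left
  have hr := hPR Lcls hZ _ Nat.Partrec.right
  have hω := hZ.infinity
  have mg : ∀ (f : ℕ → ℕ) (a b : ℕ), pair (nat a) (nat b) ∈ gp (f : ℕ →. ℕ) ↔ b = f a := by
    intro f a b
    rw [Pool.Agent.N329.SD.gp, ZFSet.mem_sep]
    constructor
    · rintro ⟨-, a', b', h1, h2⟩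
      obtain ⟨h3, h4⟩ := ZFSet.pair_inj.1 h2
      rw [nat_injective h3, nat_injective h4]
      simpa using h1
    · rintro rfl
      exact ⟨ZFSet.pair_mem_prod.2 ⟨nat_mem_omega _, nat_mem_omega _⟩, a, f a, by simp, rfl⟩
  have key : zs {n | ∃ k, n = Nat.pair k (m k)} = ZFSet.sep (fun x => ∃ k ∈ ZFSet.omega,
      ∃ y ∈ ZFSet.omega, pair x k ∈ gp ((fun n : ℕ => n.unpair.1 : ℕ → ℕ) : ℕ →. ℕ) ∧
        pair x y ∈ gp ((fun n : ℕ => n.unpair.2 : ℕ → ℕ) : ℕ →. ℕ) ∧ y = fs (ap g k))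
      ZFSet.omega := by
    ext x
    rw [zs, ZFSet.mem_sep, ZFSet.mem_sep]
    refine and_congr_right fun hx => ?_
    obtain ⟨n, rfl⟩ := mem_omega_iff.1 hx
    constructor
    · rintro ⟨n', ⟨k, rfl⟩, h2⟩
      rw [nat_injective h2]
      refine ⟨nat k, nat_mem_omega k, nat (m k), nat_mem_omega _, ?_, ?_, (h k).symm⟩
      · rw [mg]; simp
      · rw [mg]; simp
    · rintro ⟨k, hk, y, hy, h1, h2, h3⟩
      obtain ⟨k, rfl⟩ := mem_omega_iff.1 hk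
      obtain ⟨y, rfl⟩ := mem_omega_iff.1 hy
      rw [mg] at h1 h2
      rw [h k] at h3
      have h4 := nat_injective h3
      refine ⟨n, ⟨k, ?_⟩, rfl⟩
      rw [← h4, h1, h2, Nat.pair_unpair]
  rw [Pool.Agent.N329.SD.Con, key]
  refine hZ.sep_mem ?_ hω
  apply hB.bex (DfnF.const hω)
  apply hB.bex (DfnF.const hω)
  refine (Dfn.mem (hB.pair' (DfnF.proj 2) (DfnF.proj 1)) (DfnF.const hl)).and ?_
  refine (Dfn.mem (hB.pair' (DfnF.proj 2) (DfnF.proj 0)) (DfnF.const hr)).and ?_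
  exact Dfn.eq (DfnF.proj 0) (hZ.fs' (hZ.ap' (DfnF.const hg) (DfnF.proj 1)))

/-- SD/A: Shoenfield's basis theorem for systems. -/
theorem t_A : S_A := by
  intro hPR hC hKD E Q hE hQ m α hrun
  have hL := isZFC_L.1
  have hZ := hL.toIsZF
  have hB := hZ.base
  obtain ⟨κ, hκ⟩ : ∃ κ : Ordinal.{0}, ∀ k, α k < κ :=
    ⟨⨆ k, Order.succ (α k), fun k => (Order.lt_succ _).trans_le (Ordinal.le_iSup _ k)⟩
  have hD := hKD E Q Set.univ hE hQ (con_univ hC) κ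
  have hW : Wl κ ∈ Lcls := wl_mem κ
  have h0 : nat 0 ∈ Lcls := hZ.empty_mem
  obtain ⟨g, hg, hgf, hgT⟩ := branch_abs hL
    (T := ZFSet.sep (fun t => pair (nat 0) t ∈ KD E Q Set.univ κ) (Sq (Wl κ)))
    (hZ.sep_mem (Q := fun t => pair (nat 0) t ∈ KD E Q Set.univ κ) (Dfn.mem (hB.pair' (DfnF.const h0) (DfnF.proj 0)) (DfnF.const hD))
      (Sq_mem hZ hW)) hW (f := lab m α) (lab_mem hκ) (by
      intro n
      have h1 : seq (lab m α) n ∈ Sq (Wl κ) := seq_mem_Sq fun k _ => lab_mem hκ k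
      refine ZFSet.mem_sep.2 ⟨h1, ?_⟩
      rw [KD, ZFSet.mem_sep]
      exact ⟨ZFSet.pair_mem_prod.2 ⟨nat_mem_omega 0, h1⟩, 0, n, m, α, rfl,
        fun i _ j _ => hrun i j, fun k _ => trivial⟩)
  have hgW : ∀ k : ℕ, ∃ (a : ℕ) (β : Ordinal.{0}), ap g (nat k) = pair (nat a) β.toZFSet := by
    intro k
    obtain ⟨x, hx, y, hy, h1⟩ := ZFSet.mem_prod.1 (func_pair hgf k).2
    obtain ⟨a, rfl⟩ := mem_omega_iff.1 hx
    obtain ⟨β, -, rfl⟩ := Ordinal.mem_toZFSet_iff.1 hy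
    exact ⟨a, β, h1⟩
  choose m' α' hm' using hgW
  refine ⟨m', α', ?_, con_graph hPR hg fun k => by rw [hm', fs_pair]⟩
  intro i j
  obtain ⟨-, h2⟩ := ZFSet.mem_sep.1 (hgT (max i j + 1))
  rw [KD, ZFSet.mem_sep] at h2
  obtain ⟨-, q, n, m'', α'', h3, h4, -⟩ := h2
  obtain ⟨-, h5⟩ := ZFSet.pair_inj.1 h3
  obtain ⟨h6, h7⟩ := seq_inj h5
  subst h6
  have h8 : ∀ k < max i j + 1, m' k = m'' k ∧ α' k = α'' k := by
    intro k hk
    have h9 := h7 k hk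
    rw [hm', lab] at h9
    obtain ⟨h10, h11⟩ := ZFSet.pair_inj.1 h9
    exact ⟨nat_injective h10, Ordinal.toZFSet_injective h11⟩
  obtain ⟨hi1, hi2⟩ := h8 i (by omega)
  obtain ⟨hj1, hj2⟩ := h8 j (by omega)
  rw [hi1, hi2, hj1, hj2]
  exact h4 i (by omega) j (by omega)

end Pool.Agent.N2.SD
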